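import Pool.Agent.Q257.Lap.Tests

set_option autoImplicit false

/-!
# Digraphs whose Laplacian spread exceeds the order by a linear amount
-/

namespace Pool.Agent.Results.MP_df5386_co.SlopeAboveOne

open Finset Matrix Pool.Agent.Q257.Lap

/-- The digraph on `4m+2` vertices: all arcs from `{0,…,m-1}` to `{m,…,2m-1}`, and all arcs leaving
the last two vertices. -/
def G (m : ℕ) (i j : Fin (4 * m + 2)) : Prop :=
  (i.val < m ∧ m ≤ j.val ∧ j.val < 2 * m) ∨ (4 * m ≤ i.val ∧ i ≠ j)

theorem G_irrefl (m : ℕ) (i : Fin (4 * m + 2)) : ¬ G m i i := by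
  rintro (⟨h1, h2, _⟩ | ⟨_, h⟩)
  · omega
  · exact h rfl

/-- the test vector making the form negative -/
noncomputable def y (m : ℕ) (i : Fin (4 * m + 2)) : ℝ :=
  if i.val < m then 1 else if i.val < 2 * m then 2 else if i.val < 4 * m then -(3 / 2) else 0

theorem y_eq (m : ℕ) (i : Fin (4 * m + 2)) : y m i =
    (if 0 ≤ i.val ∧ i.val < m then (1 : ℝ) else 0) + 2 * (if m ≤ i.val ∧ i.val < 2 * m then 1 else 0)
      - 3 / 2 * (if 2 * m ≤ i.val ∧ i.val < 4 * m then 1 else 0) := by
  unfold y
  by_cases h1 : i.val < m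
  · have h2 : ¬ m ≤ i.val := by omega
    have h3 : ¬ 2 * m ≤ i.val := by omega
    simp [h1, h2, h3]
  · by_cases h2 : i.val < 2 * m
    · have h3 : ¬ 2 * m ≤ i.val := by omega
      have h4 : m ≤ i.val := by omega
      simp [h1, h2, h3, h4]
    · by_cases h3 : i.val < 4 * m
      · have h4 : 2 * m ≤ i.val := by omega
        simp [h1, h2, h3, h4]
      · simp [h1, h2, h3]

theorem y_sq (m : ℕ) (i : Fin (4 * m + 2)) : y m i ^ 2 =
    (if 0 ≤ i.val ∧ i.val < m then (1 : ℝ) else 0) + 4 * (if m ≤ i.val ∧ i.val < 2 * m then 1 else 0)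
      + 9 / 4 * (if 2 * m ≤ i.val ∧ i.val < 4 * m then 1 else 0) := by
  unfold y
  by_cases h1 : i.val < m
  · have h2 : ¬ m ≤ i.val := by omega
    have h3 : ¬ 2 * m ≤ i.val := by omega
    simp [h1, h2, h3]
  · by_cases h2 : i.val < 2 * m
    · have h3 : ¬ 2 * m ≤ i.val := by omega
      have h4 : m ≤ i.val := by omega
      simp [h1, h2, h3, h4]
      norm_num
    · by_cases h3 : i.val < 4 * m
      · have h4 : 2 * m ≤ i.val := by omega
        simp [h1, h2, h3, h4]
        norm_num
      · simp [h1, h2, h3]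

theorem y_sum (m : ℕ) : ∑ i, y m i = 0 := by
  simp only [y_eq, Finset.sum_sub_distrib, Finset.sum_add_distrib, ← Finset.mul_sum]
  rw [sum_ind _ 0 m (by omega) (by omega), sum_ind _ m (2 * m) (by omega) (by omega),
    sum_ind _ (2 * m) (4 * m) (by omega) (by omega)]
  push_cast
  ring

theorem y_norm (m : ℕ) : ∑ i, y m i ^ 2 = 19 / 2 * m := by
  simp only [y_sq, Finset.sum_add_distrib, ← Finset.mul_sum]
  rw [sum_ind _ 0 m (by omega) (by omega), sum_ind _ m (2 * m) (by omega) (by omega),
    sum_ind _ (2 * m) (4 * m) (by omega) (by omega)]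
  push_cast
  ring

theorem quad_y (m : ℕ) : quad (G m) (y m) = -((m : ℝ) * m) := by
  have h : ∀ i j : Fin (4 * m + 2), adj (G m) i j * (y m i * (y m i - y m j)) =
      -((if 0 ≤ i.val ∧ i.val < m then (1 : ℝ) else 0) *
        (if m ≤ j.val ∧ j.val < 2 * m then (1 : ℝ) else 0)) := by
    intro i j
    unfold adj
    by_cases h1 : i.val < m
    · have h4 : ¬ 4 * m ≤ i.val := by omega
      by_cases h2 : m ≤ j.val ∧ j.val < 2 * m
      · have h3 : ¬ j.val < m := by omega
        have h5 : G m i j := Or.inl ⟨h1, h2⟩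
        simp [h1, h2, h3, h5, y]
        norm_num
      · have h5 : ¬ G m i j := by
          rintro (⟨_, h⟩ | ⟨h, _⟩)
          · exact h2 h
          · exact h4 h
        simp [h2, h5]
    · by_cases h4 : i.val < 4 * m
      · have h5 : ¬ G m i j := by
          rintro (⟨h, _⟩ | ⟨h, _⟩)
          · exact h1 h
          · omega
        simp [h1, h5]
      · have h6 : y m i = 0 := by
          unfold y
          rw [if_neg h1, if_neg (by omega), if_neg h4]
        simp [h1, h6]
  unfold quad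
  simp only [h, Finset.sum_neg_distrib, ← Finset.mul_sum, ← Finset.sum_mul]
  rw [sum_ind _ 0 m (by omega) (by omega), sum_ind _ m (2 * m) (by omega) (by omega)]
  push_cast
  ring

theorem alpha_le (m : ℕ) (hm : 1 ≤ m) : alpha (G m) ≤ -(2 * m / 19) := by
  have h := alpha_mul_le (G m) (y m) (y_sum m)
  rw [quad_y, y_norm] at h
  have hm' : (0 : ℝ) < m := by exact_mod_cast hm
  have h2 : alpha (G m) * (19 / 2) ≤ -m := by
    have : (alpha (G m) * (19 / 2)) * m ≤ (-m) * m := by linarith
    exact le_of_mul_le_mul_right this hm'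
  linarith

theorem dg_last (m : ℕ) (i : Fin (4 * m + 2)) (hi : 4 * m ≤ i.val) :
    dg (G m) i = 4 * m + 1 := by
  unfold dg
  have : ∀ j, adj (G m) i j = 1 - (if j = i then 1 else 0) := by
    intro j
    unfold adj
    by_cases h : j = i
    · subst h
      simp [G_irrefl]
    · have h5 : G m i j := Or.inr ⟨hi, fun h' => h h'.symm⟩
      simp [h, h5]
  simp only [this, Finset.sum_sub_distrib]
  simp
  ring

theorem le_beta (m : ℕ) : (4 * m + 2 : ℝ) ≤ beta (G m) := by
  let p : Fin (4 * m + 2) := ⟨4 * m, by omega⟩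
  let q : Fin (4 * m + 2) := ⟨4 * m + 1, by omega⟩
  have hpq : p ≠ q := by
    intro h
    have := congrArg Fin.val h
    simp [p, q] at this
  have h := pair_le_beta (G m) (G_irrefl m) p q hpq
  rw [dg_last m p (by simp [p]), dg_last m q (by simp [q])] at h
  have h1 : adj (G m) p q = 1 := by
    unfold adj
    exact if_pos (Or.inr ⟨by simp [p], hpq⟩)
  have h2 : adj (G m) q p = 1 := by
    unfold adj
    exact if_pos (Or.inr ⟨by simp [q], hpq.symm⟩)
  rw [h1, h2] at h
  linarith

/-- For every `m ≥ 1` there is a digraph of order `n = 4m+2` whose Laplacian spread is at least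
`n + 2m/19`. -/
theorem result : ∀ m : ℕ, 1 ≤ m → ∃ E : Fin (4 * m + 2) → Fin (4 * m + 2) → Prop,
    (∀ i, ¬ E i i) ∧ ((4 * m + 2 : ℕ) : ℝ) + 2 * m / 19 ≤ spread E := by
  intro m hm
  refine ⟨G m, G_irrefl m, ?_⟩
  have h1 := alpha_le m hm
  have h2 := le_beta m
  unfold spread
  push_cast
  linarith

end Pool.Agent.Results.MP_df5386_co.SlopeAboveOne
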